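import Pool.Agent.Y986.FB.Final
import Pool.Agent.W852.FG.Pos
import Pool.Agent.W782.FG.Split
import Pool.Agent.W782.FG.Chain
import Pool.Agent.W782.FG.GF
import Pool.Agent.W782.FG.Mk
import Pool.Agent.W782.FG.Ind
import Pool.Agent.W363.FG.MomX
import Pool.Agent.W591.FG.W
import Pool.Agent.W591.FG.Wpos
import Pool.Agent.W591.FG.Key
import Pool.Agent.W578.FG.Pt
import Pool.Agent.W636.FG.MomP

/-!
# Frog model on Galton-Watson trees: biased walks and arbitrary laws of the sleeping particles

For every offspring law `p` with mean in `(1, ∞]` and every bias `b` with `0 < b < mean` there is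
a positive `lam` such that on almost every Galton-Watson tree conditioned on non-extinction there
is a finite constant `C` with the following property: whatever the laws of the independent numbers
of sleeping particles (they may vary from vertex to vertex and need not be Poisson), if their means
are at most `lam` then the expected total number of visits to the root by active particles of the
frog model with `b`-biased walks is at most `C`; in particular the model is transient.
-/

namespace Pool.Agent.Results.MP_ac6ae5_pr.BiasedWalksAllLaws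

open MeasureTheory ProbabilityTheory
open FrogGW (Survive GW)
open FrogB (FM Visits)
open scoped ENNReal NNReal

theorem result (p : Measure ℕ) [IsProbabilityMeasure p] (hp : 1 < ∫⁻ k, (k : ℝ≥0∞) ∂p)
    (b : ℝ) (hb : 0 < b) (hbp : ENNReal.ofReal b < ∫⁻ k, (k : ℝ≥0∞) ∂p) :
    MeasurableSet Survive ∧ GW p Survive ≠ 0 ∧ ∃ lam : ℝ≥0, 0 < lam ∧
      ∀ᵐ Z ∂(ProbabilityTheory.cond (GW p) Survive), ∃ C : ℝ≥0,
        ∀ (η : List ℕ → Measure ℕ) [∀ v, IsProbabilityMeasure (η v)],
          (∀ v, ∫⁻ k, (k : ℝ≥0∞) ∂(η v) ≤ lam) →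
          ∫⁻ ω, ((Visits b Z ω).encard : ℝ≥0∞) ∂(FM η) ≤ C ∧
          ∀ᵐ ω ∂(FM η), (Visits b Z ω).Finite := by
  have hTr : FrogGW.TaskTree := Pool.Agent.W782.FG.tree
  have hW : FrogGW.TaskW := FrogGW.W591.taskW
  have hWpos : FrogGW.TaskWpos := FrogGW.W591.taskWpos hTr
  have hGF : FrogGW.TaskGF := Pool.Agent.W782.FG.gf
  have hZero : FrogGW.TaskZero := FrogGW.W591.taskZero hTr hW
  have hE : FrogGW.TaskExt := FrogGW.W591.taskExt hTr hW hWpos hGF hZero
  have hMk : FrogGW.TaskMk := Pool.Agent.W782.FG.mkMain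
  have hKap : FrogGW.TaskKappa := Pool.Agent.W782.FG.kappa hMk hGF
  have hInd : FrogGW.TaskInd := Pool.Agent.W782.FG.ind
  have hMomP : FrogGW.TaskMomP :=
    Pool.Agent.W636.FG.momP hMk FrogGW.W578.ptA FrogGW.W578.ptB hInd
  have hMomX : FrogGW.TaskMomX := Pool.Agent.W363.FG.momX hInd
  obtain ⟨lam, h0, hm, h⟩ := FrogB.final hTr Pool.Agent.W782.FG.seq hW hE
    (FrogB.moment hTr hW hWpos hGF hZero hKap hInd hMomP hMomX) p hp b hb hbp
  refine ⟨hm, FrogGW.survive_pos hW hWpos p hp, lam, h0, ?_⟩
  unfold ProbabilityTheory.cond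
  exact Measure.ae_smul_measure ((ae_restrict_iff' hm).2 h) _

end Pool.Agent.Results.MP_ac6ae5_pr.BiasedWalksAllLaws
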